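import Pool.Agent.L7h35.RQ5.Stm

/-!
# Project QR (MP_f9e5d9_nt), parts SUB, MON, LOW
-/

set_option autoImplicit false

namespace Pool.Agent.L7h73.RQ5

open Pool.Agent.L7h35.RQ5

theorem attained (n : ℕ) : ∃ A : Finset ℕ, (∀ a ∈ A, 0 < a) ∧ A.card = n ∧ (R A).card = h n := by
  have hne : {k | ∃ A : Finset ℕ, (∀ a ∈ A, 0 < a) ∧ A.card = n ∧ (R A).card = k}.Nonempty := by
    refine ⟨(R (Finset.Icc 1 n)).card, Finset.Icc 1 n, ?_, ?_, rfl⟩
    · intro a ha
      exact (Finset.mem_Icc.1 ha).1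
    · simp
  exact Nat.sInf_mem hne

theorem h_le (A : Finset ℕ) (hA : ∀ a ∈ A, 0 < a) : h A.card ≤ (R A).card :=
  Nat.sInf_le ⟨A, hA, rfl, rfl⟩

/-- [MON] -/
theorem s_MON : S_MON := by
  intro m n hmn
  obtain ⟨A, hA, hn, hR⟩ := attained n
  obtain ⟨B, hB, hm⟩ := Finset.exists_subset_card_eq (s := A) (n := m) (by omega)
  have h1 : h B.card ≤ (R B).card := h_le B (fun a ha => hA a (hB ha))
  rw [hm] at h1
  rw [← hR]
  refine h1.trans (Finset.card_le_card ?_)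
  unfold R
  exact Finset.image_subset_image (Finset.product_subset_product hB hB)

/-- [LOW] -/
theorem s_LOW : S_LOW := by
  intro n
  obtain ⟨A, hA, hn, hR⟩ := attained n
  rcases A.eq_empty_or_nonempty with h0 | ⟨a0, ha0⟩
  · rw [h0, Finset.card_empty] at hn
    omega
  have hcard : A.card ≤ (R A ×ˢ R A).card := by
    refine Finset.card_le_card_of_injOn (fun a => (a / Nat.gcd a0 a, a0 / Nat.gcd a a0)) ?_ ?_
    · intro a ha
      rw [Finset.mem_coe] at ha ⊢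
      rw [Finset.mem_product]
      refine ⟨?_, ?_⟩
      · exact Finset.mem_image.2 ⟨(a0, a), Finset.mem_product.2 ⟨ha0, ha⟩, rfl⟩
      · exact Finset.mem_image.2 ⟨(a, a0), Finset.mem_product.2 ⟨ha, ha0⟩, rfl⟩
    · intro a ha b hb hab
      rw [Finset.mem_coe] at ha hb
      have h1 : a / Nat.gcd a0 a = b / Nat.gcd a0 b := congrArg Prod.fst hab
      have h2 : a0 / Nat.gcd a a0 = a0 / Nat.gcd b a0 := congrArg Prod.snd hab
      rw [Nat.gcd_comm a a0, Nat.gcd_comm b a0] at h2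
      have hp := hA a0 ha0
      have d1 : Nat.gcd a0 a ∣ a0 := Nat.gcd_dvd_left _ _
      have d2 : Nat.gcd a0 b ∣ a0 := Nat.gcd_dvd_left _ _
      have e1 := Nat.div_mul_cancel d1
      have e2 := Nat.div_mul_cancel d2
      have hpos : 0 < a0 / Nat.gcd a0 a := Nat.div_pos (Nat.le_of_dvd hp d1)
        (Nat.pos_of_dvd_of_pos d1 hp)
      have hg : Nat.gcd a0 a = Nat.gcd a0 b := by
        rw [← h2] at e2
        exact Nat.eq_of_mul_eq_mul_left hpos (e1.trans e2.symm)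
      have f1 := Nat.div_mul_cancel (Nat.gcd_dvd_right a0 a)
      have f2 := Nat.div_mul_cancel (Nat.gcd_dvd_right a0 b)
      rw [← f1, ← f2, h1, hg]
  rw [Finset.card_product, hR, hn] at hcard
  rw [pow_two]
  exact hcard

open Classical in
theorem mem_T {ι : Type} (X : Finset (ι → ℤ)) (z : ι → ℕ) :
    z ∈ T X ↔ ∃ x ∈ X, ∃ y ∈ X, (fun i => (y i - x i).toNat) = z := by
  unfold T
  rw [Finset.mem_image]
  constructor
  · rintro ⟨⟨x, y⟩, hp, hz⟩
    rw [Finset.mem_product] at hp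
    exact ⟨x, hp.1, y, hp.2, hz⟩
  · rintro ⟨x, hx, y, hy, hz⟩
    exact ⟨(x, y), Finset.mem_product.2 ⟨hx, hy⟩, hz⟩

/-- [SUB] -/
theorem s_SUB (hVN : S_VN) (hNV : S_NV) : S_SUB := by
  classical
  intro m n
  obtain ⟨ι, _, X, hX, hTX⟩ := hNV m
  obtain ⟨κ, _, Y, hY, hTY⟩ := hNV n
  let e : (ι → ℤ) × (κ → ℤ) → (ι ⊕ κ → ℤ) := fun p => Sum.elim p.1 p.2
  have he : Function.Injective e := by
    intro p q hpq
    have h1 : p.1 = q.1 := by
      funext i
      exact congrFun hpq (Sum.inl i)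
    have h2 : p.2 = q.2 := by
      funext i
      exact congrFun hpq (Sum.inr i)
    exact Prod.ext h1 h2
  let Z : Finset (ι ⊕ κ → ℤ) := (X ×ˢ Y).image e
  have hZ : Z.card = m * n := by
    rw [Finset.card_image_of_injective _ he, Finset.card_product, hX, hY]
  have hT : T Z ⊆ (T X ×ˢ T Y).image (fun p => (Sum.elim p.1 p.2 : ι ⊕ κ → ℕ)) := by
    intro z hz
    rw [mem_T] at hz
    obtain ⟨z1, hz1, z2, hz2, rfl⟩ := hz
    obtain ⟨⟨x1, y1⟩, hp, rfl⟩ := Finset.mem_image.1 hz1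
    obtain ⟨⟨x2, y2⟩, hq, rfl⟩ := Finset.mem_image.1 hz2
    rw [Finset.mem_product] at hp hq
    rw [Finset.mem_image]
    refine ⟨(fun i => (x2 i - x1 i).toNat, fun i => (y2 i - y1 i).toNat), ?_, ?_⟩
    · rw [Finset.mem_product]
      exact ⟨(mem_T X _).2 ⟨x1, hp.1, x2, hq.1, rfl⟩, (mem_T Y _).2 ⟨y1, hp.2, y2, hq.2, rfl⟩⟩
    · funext i
      cases i <;> rfl
  have h1 : h Z.card ≤ (T Z).card := hVN (ι ⊕ κ) inferInstance Z
  rw [hZ] at h1
  calc h (m * n) ≤ (T Z).card := h1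
    _ ≤ ((T X ×ˢ T Y).image (fun p => (Sum.elim p.1 p.2 : ι ⊕ κ → ℕ))).card :=
        Finset.card_le_card hT
    _ ≤ (T X ×ˢ T Y).card := Finset.card_image_le
    _ = (T X).card * (T Y).card := Finset.card_product _ _
    _ ≤ h m * h n := Nat.mul_le_mul hTX hTY

end Pool.Agent.L7h73.RQ5
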